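import Pool.Agent.Helper17.CR.Stmts
import Pool.Agent.Helper17.SmoothQuad

set_option autoImplicit false

namespace Pool.Agent.Helper90.CR

open Pool.Agent.Helper17.CR

theorem big_aux (lam B X : ℕ) (s : ℤ)
    (hXs : (X : ℤ) ^ 2 + (4 * lam - 1) = 4 * s)
    (h : ∃ p : ℕ, p.Prime ∧ p ∣ X ^ 2 + (4 * lam - 1) ∧ B.max 2 < p) (hl : 1 ≤ lam) :
    ∃ p : ℕ, p.Prime ∧ B < p ∧ (p : ℤ) ∣ s := by
  obtain ⟨p, hp, hd, hB⟩ := h
  have h1 : B < p := lt_of_le_of_lt (le_max_left B 2) hB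
  have h2 : 2 < p := lt_of_le_of_lt (le_max_right B 2) hB
  refine ⟨p, hp, h1, ?_⟩
  have h3 : (p : ℤ) ∣ 4 * s := by
    rw [← hXs]
    have h4 : ((X ^ 2 + (4 * lam - 1) : ℕ) : ℤ) = (X : ℤ) ^ 2 + (4 * lam - 1) := by
      push_cast [show 1 ≤ 4 * lam by omega]
      ring
    rw [← h4]
    exact_mod_cast hd
  have h5 : IsCoprime (p : ℤ) 4 := by
    have h6 : Nat.Coprime p 4 := by
      have h7 : Nat.Coprime p 2 := (Nat.coprime_primes hp Nat.prime_two).2 (by omega)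
      exact Nat.Coprime.pow_right 2 h7
    exact_mod_cast Nat.isCoprime_iff_coprime.2 h6
  exact h5.dvd_of_dvd_mul_left h3

theorem st_BIG : ST_BIG := by
  intro lam B hl
  have hfin := Pool.Agent.Helper17.Smooth.polya (4 * lam - 1) (B.max 2) (by omega)
  obtain ⟨S, hS⟩ := hfin.bddAbove
  have key : ∀ X : ℕ, S < X → ∃ p : ℕ, p.Prime ∧ p ∣ X ^ 2 + (4 * lam - 1) ∧ B.max 2 < p := by
    intro X hX
    by_contra hc
    push_neg at hc
    have h1 : X ∈ {X : ℕ | ∀ p : ℕ, p.Prime → p ∣ X ^ 2 + (4 * lam - 1) → p ≤ B.max 2} := hc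
    exact absurd (hS h1) (by omega)
  refine ⟨S + 1, fun s hs => ⟨?_, ?_⟩⟩
  · refine big_aux lam B (2 * s + 1) _ ?_ (key (2 * s + 1) (by omega)) hl
    push_cast
    ring
  · refine big_aux lam B (2 * s - 1) _ ?_ (key (2 * s - 1) (by omega)) hl
    push_cast [show 1 ≤ 2 * s by omega]
    ring

end Pool.Agent.Helper90.CR
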